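import Mathlib

/-!
# Square-root-linear operators and matrices of determinant one in characteristic two

For a ring `R` of characteristic two, an additive map `κ : R → R` with `κ (s * s * u) = s * κ u`
is called *root-linear*.  For a `2 × 2` matrix with entries `x y z w` and determinant one and two
root-linear maps we consider the elements `κ (x z)`, `κ (y w)`, and prove that a certain
compatibility holds for products of elementary matrices.
-/

set_option autoImplicit false

namespace Pool.Agent.H9C.HR

variable {R : Type*} [CommRing R]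

/-- The compatibility property of the matrix with rows `(x, y)` and `(z, w)` for the two
root-linear maps `k1` and `k2`. -/
def Comp (k1 k2 : R →+ R) (x y z w : R) : Prop :=
  ∃ X1 X2 : R,
    X1 + k1 X1 = k1 (x * z) * k1 (y * w) ∧
    X2 + k2 X2 = k2 (x * z) * k2 (y * w) ∧
    k1 X2 + k2 X1 = k1 (x * z) * k2 (y * w) + k2 (x * z) * k1 (y * w)

lemma comp_of_left (k1 k2 : R →+ R) {x y z w : R} (h : x * z = 0) : Comp k1 k2 x y z w :=
  ⟨0, 0, by simp [h], by simp [h], by simp [h]⟩

lemma comp_of_right (k1 k2 : R →+ R) {x y z w : R} (h : y * w = 0) : Comp k1 k2 x y z w :=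
  ⟨0, 0, by simp [h], by simp [h], by simp [h]⟩

/-- Values of a root-linear map on the entries of a product. -/
lemma root_prod (k : R →+ R) (hk : ∀ s u, k (s * s * u) = s * k u)
    {x y z w x' z' : R} (hd : x * w + y * z = 1) :
    k ((x * x' + y * z') * (z * x' + w * z'))
      = x' * k (x * z) + k (x' * z') + z' * k (y * w) := by
  have e : (x * x' + y * z') * (z * x' + w * z')
      = x' * x' * (x * z) + x' * z' + z' * z' * (y * w) := by
    linear_combination (x' * z') * hd
  rw [e, map_add, map_add, hk, hk]

lemma root_cross (k : R →+ R) (hk : ∀ s u, k (s * s * u) = s * k u)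
    {x' y' z' w' : R} (hd : x' * w' + y' * z' = 1) :
    k (x' * y') = x' * k (y' * w') + y' * k (x' * z') := by
  rw [← hk, ← hk, ← map_add]
  congr 1
  linear_combination (-(x' * y')) * hd

lemma root_cross' (k : R →+ R) (hk : ∀ s u, k (s * s * u) = s * k u)
    {x' y' z' w' : R} (hd : x' * w' + y' * z' = 1) :
    k (z' * w') = z' * k (y' * w') + w' * k (x' * z') := by
  rw [← hk, ← hk, ← map_add]
  congr 1
  linear_combination (-(z' * w')) * hd

/-- The compatibility property is stable under products. -/
theorem comp_mul (h2 : (2 : R) = 0) (k1 k2 : R →+ R)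
    (hk1 : ∀ s u, k1 (s * s * u) = s * k1 u) (hk2 : ∀ s u, k2 (s * s * u) = s * k2 u)
    {x y z w x' y' z' w' : R} (hd : x * w + y * z = 1) (hd' : x' * w' + y' * z' = 1)
    (hG : Comp k1 k2 x y z w) (hH : Comp k1 k2 x' y' z' w') :
    Comp k1 k2 (x * x' + y * z') (x * y' + y * w') (z * x' + w * z') (z * y' + w * w') := by
  obtain ⟨X1, X2, e1, e2, e3⟩ := hG
  obtain ⟨Y1, Y2, f1, f2, f3⟩ := hH
  have p1 := root_prod k1 hk1 (x' := x') (z' := z') hd
  have p2 := root_prod k2 hk2 (x' := x') (z' := z') hd
  have q1 := root_prod k1 hk1 (x' := y') (z' := w') hd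
  have q2 := root_prod k2 hk2 (x' := y') (z' := w') hd
  have c1 := root_cross k1 hk1 hd'
  have c2 := root_cross k2 hk2 hd'
  have d1 := root_cross' k1 hk1 hd'
  have d2 := root_cross' k2 hk2 hd'
  refine ⟨X1 + Y1 + (k1 (x * z) * k1 (x * z) * (x' * y')
      + k1 (y * w) * k1 (y * w) * (z' * w')),
    X2 + Y2 + (k2 (x * z) * k2 (x * z) * (x' * y')
      + k2 (y * w) * k2 (y * w) * (z' * w')), ?_, ?_, ?_⟩
  · rw [map_add, map_add, map_add, hk1, hk1, p1, q1, c1, d1]
    generalize k1 (x * z) = A at *
    generalize k1 (y * w) = C at *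
    generalize k1 (x' * z') = A' at *
    generalize k1 (y' * w') = C' at *
    linear_combination e1 + f1 - A * C * hd'
  · rw [map_add, map_add, map_add, hk2, hk2, p2, q2, c2, d2]
    generalize k2 (x * z) = A at *
    generalize k2 (y * w) = C at *
    generalize k2 (x' * z') = A' at *
    generalize k2 (y' * w') = C' at *
    linear_combination e2 + f2 - A * C * hd'
  · rw [map_add, map_add, map_add, map_add, map_add, map_add, hk1, hk1, hk2, hk2, p1, p2, q1, q2,
      c1, c2, d1, d2]
    generalize k1 (x * z) = A1 at *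
    generalize k1 (y * w) = C1 at *
    generalize k1 (x' * z') = A1' at *
    generalize k1 (y' * w') = C1' at *
    generalize k2 (x * z) = A2 at *
    generalize k2 (y * w) = C2 at *
    generalize k2 (x' * z') = A2' at *
    generalize k2 (y' * w') = C2' at *
    linear_combination e3 + f3 - (A1 * C2 + A2 * C1) * hd'
      - (A1 * A2 * x' * y' + C1 * C2 * z' * w') * h2

end Pool.Agent.H9C.HR
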