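import Pool.Agent.H9C.HR.Rows

/-!
# Extended modules over polynomial rings over a local ring
-/

set_option autoImplicit false

open TensorProduct

namespace Pool.Agent.H9C.HR

/-- Over a local ring, the kernel of a unimodular row of length three over a polynomial ring is
free if it is extended from the local ring. -/
theorem free_of_extended {A : Type*} [CommRing A] [IsLocalRing A] {n : ℕ}
    (r s : Fin 3 → MvPolynomial (Fin n) A) (h : ∑ i, r i * s i = 1)
    (Q : Type*) [AddCommGroup Q] [Module A Q]
    (f : (LinearMap.ker (rowForm r)) ≃ₗ[MvPolynomial (Fin n) A]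
      (MvPolynomial (Fin n) A) ⊗[A] Q) :
    Module.Free (MvPolynomial (Fin n) A) (LinearMap.ker (rowForm r)) := by
  classical
  letI : Algebra (MvPolynomial (Fin n) A) A :=
    (MvPolynomial.constantCoeff (R := A) (σ := Fin n)).toAlgebra
  haveI : IsScalarTower A (MvPolynomial (Fin n) A) A := by
    refine IsScalarTower.of_algebraMap_eq fun x => ?_
    change x = MvPolynomial.constantCoeff (MvPolynomial.C x)
    simp
  have hfin : Module.Finite (MvPolynomial (Fin n) A) (LinearMap.ker (rowForm r)) := by
    refine Module.Finite.of_surjective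
      ((LinearMap.fst _ (LinearMap.ker (rowForm r)) (Fin 1 → MvPolynomial (Fin n) A)).comp
        (kerEquiv r s h).symm.toLinearMap) ?_
    intro m
    exact ⟨kerEquiv r s h (m, 0), by simp⟩
  have hproj : Module.Projective (MvPolynomial (Fin n) A) (LinearMap.ker (rowForm r)) :=
    Module.Projective.of_split
      ((kerEquiv r s h).toLinearMap.comp (LinearMap.inl _ _ (Fin 1 → MvPolynomial (Fin n) A)))
      ((LinearMap.fst _ _ (Fin 1 → MvPolynomial (Fin n) A)).comp
        (kerEquiv r s h).symm.toLinearMap) (by
        ext x
        simp)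
  have g1 : A ⊗[MvPolynomial (Fin n) A] (LinearMap.ker (rowForm r)) ≃ₗ[A] Q :=
    (TensorProduct.AlgebraTensorModule.congr (LinearEquiv.refl A A) f) ≪≫ₗ
      (TensorProduct.AlgebraTensorModule.cancelBaseChange A (MvPolynomial (Fin n) A) A A Q) ≪≫ₗ
      (TensorProduct.lid A Q)
  haveI : Module.Finite A Q := Module.Finite.equiv g1
  haveI : Module.Projective A Q := Module.Projective.of_equiv g1
  haveI : Module.Free A Q := Module.free_of_flat_of_isLocalRing
  exact Module.Free.of_equiv f.symm

end Pool.Agent.H9C.HR
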