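import Pool.Agent.H9C.HR.Poly

/-!
# Extension of root-linear maps to the field of fractions, and the main statement on matrices
-/

set_option autoImplicit false

open Polynomial

namespace Pool.Agent.H9C.HR

section frac

variable {P : Type*} [CommRing P] [IsDomain P]

/-- A root-linear map on a domain extends to the field of fractions. -/
theorem exists_frac (φ : P →+ P) (hφ : ∀ s u, φ (s * s * u) = s * φ u) :
    ∃ ψ : FractionRing P →+ FractionRing P,
      (∀ u, ψ (algebraMap P (FractionRing P) u) = algebraMap P (FractionRing P) (φ u)) ∧
      ∀ s u, ψ (s * s * u) = s * ψ u := by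
  classical
  have hinj : Function.Injective (algebraMap P (FractionRing P)) :=
    IsFractionRing.injective P (FractionRing P)
  have hne : ∀ {b : P}, b ≠ 0 → algebraMap P (FractionRing P) b ≠ 0 := by
    intro b hb h
    exact hb (hinj (by rw [h, map_zero]))
  have hsurj : ∀ x : FractionRing P, ∃ a b : P, b ≠ 0 ∧
      algebraMap P (FractionRing P) a / algebraMap P (FractionRing P) b = x := by
    intro x
    obtain ⟨a, b, hb, h⟩ := IsFractionRing.div_surjective (A := P) x
    exact ⟨a, b, nonZeroDivisors.ne_zero hb, h⟩
  choose n d hd hnd using hsurj
  have key : ∀ (a b : P) (x : FractionRing P), b ≠ 0 →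
      algebraMap P (FractionRing P) a / algebraMap P (FractionRing P) b = x →
      algebraMap P (FractionRing P) (φ (n x * d x)) / algebraMap P (FractionRing P) (d x)
        = algebraMap P (FractionRing P) (φ (a * b)) / algebraMap P (FractionRing P) b := by
    intro a b x hb hab
    have h1 := (hnd x).trans hab.symm
    rw [div_eq_div_iff (hne (hd x)) (hne hb), ← map_mul, ← map_mul] at h1
    have h2 := hinj h1
    rw [div_eq_div_iff (hne (hd x)) (hne hb), ← map_mul, ← map_mul]
    congr 1
    rw [mul_comm, ← hφ, mul_comm (φ (a * b)), ← hφ]
    congr 1
    linear_combination (b * d x) * h2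
  have hadd : ∀ x y : FractionRing P,
      algebraMap P (FractionRing P) (φ (n (x + y) * d (x + y))) /
          algebraMap P (FractionRing P) (d (x + y))
        = algebraMap P (FractionRing P) (φ (n x * d x)) / algebraMap P (FractionRing P) (d x)
          + algebraMap P (FractionRing P) (φ (n y * d y)) /
            algebraMap P (FractionRing P) (d y) := by
    intro x y
    have hx := hne (hd x)
    have hy := hne (hd y)
    have hxy : algebraMap P (FractionRing P) (n x * d y + n y * d x) /
        algebraMap P (FractionRing P) (d x * d y) = x + y := by
      have h5 : algebraMap P (FractionRing P) (n x) / algebraMap P (FractionRing P) (d x)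
          + algebraMap P (FractionRing P) (n y) / algebraMap P (FractionRing P) (d y)
          = x + y := by
        rw [hnd, hnd]
      rw [← h5]
      simp only [RingHom.map_add, RingHom.map_mul]
      field_simp
    rw [key (n x * d y + n y * d x) (d x * d y) (x + y) (mul_ne_zero (hd x) (hd y)) hxy]
    have e : (n x * d y + n y * d x) * (d x * d y)
        = d y * d y * (n x * d x) + d x * d x * (n y * d y) := by ring
    rw [e, map_add, hφ, hφ]
    simp only [RingHom.map_add, RingHom.map_mul]
    field_simp
  refine ⟨⟨⟨fun x => algebraMap P (FractionRing P) (φ (n x * d x)) /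
      algebraMap P (FractionRing P) (d x), ?_⟩, hadd⟩, ?_, ?_⟩
  · have := hadd 0 0
    rw [add_zero] at this
    exact left_eq_add.mp this
  · intro u
    change algebraMap P (FractionRing P) (φ (n _ * d _)) / algebraMap P (FractionRing P) (d _) = _
    rw [key u 1 _ one_ne_zero (by simp)]
    simp
  · intro s x
    change algebraMap P (FractionRing P) (φ (n _ * d _)) / algebraMap P (FractionRing P) (d _)
      = s * (algebraMap P (FractionRing P) (φ (n x * d x)) /
        algebraMap P (FractionRing P) (d x))
    have hx := hne (hd x)
    have hs := hne (hd s)
    have hes : algebraMap P (FractionRing P) (n s) / algebraMap P (FractionRing P) (d s) = s :=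
      hnd s
    have hsx : algebraMap P (FractionRing P) (n s * n s * n x) /
        algebraMap P (FractionRing P) (d s * d s * d x) = s * s * x := by
      have h5 : algebraMap P (FractionRing P) (n s) / algebraMap P (FractionRing P) (d s)
          * (algebraMap P (FractionRing P) (n s) / algebraMap P (FractionRing P) (d s))
          * (algebraMap P (FractionRing P) (n x) / algebraMap P (FractionRing P) (d x))
          = s * s * x := by
        rw [hnd, hnd]
      rw [← h5]
      simp only [RingHom.map_mul]
      field_simp
    rw [key (n s * n s * n x) (d s * d s * d x) _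
      (mul_ne_zero (mul_ne_zero (hd s) (hd s)) (hd x)) hsx]
    have e : n s * n s * n x * (d s * d s * d x)
        = (n s * d s) * (n s * d s) * (n x * d x) := by ring
    rw [e, hφ]
    have h6 : s * (algebraMap P (FractionRing P) (φ (n x * d x)) /
        algebraMap P (FractionRing P) (d x))
        = algebraMap P (FractionRing P) (n s) / algebraMap P (FractionRing P) (d s) *
          (algebraMap P (FractionRing P) (φ (n x * d x)) /
          algebraMap P (FractionRing P) (d x)) := by rw [hnd]
    rw [h6]
    simp only [RingHom.map_mul]
    field_simp

/-- Matrices of determinant one over the polynomial ring of a domain of characteristic two are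
compatible with all extensions of root-linear maps. -/
theorem comp_domain (h2 : (2 : P) = 0) (φ1 φ2 : P →+ P)
    (hφ1 : ∀ s u, φ1 (s * s * u) = s * φ1 u) (hφ2 : ∀ s u, φ2 (s * s * u) = s * φ2 u)
    (x y z w : P[X]) (hd : x * w + y * z = 1) :
    Comp (rootT φ1) (rootT φ2) x y z w := by
  obtain ⟨ψ1, a1, b1⟩ := exists_frac φ1 hφ1
  obtain ⟨ψ2, a2, b2⟩ := exists_frac φ2 hφ2
  have h2' : (2 : FractionRing P) = 0 := by
    have := congrArg (algebraMap P (FractionRing P)) h2
    rwa [map_ofNat, map_zero] at this
  exact comp_transfer h2' (algebraMap P (FractionRing P))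
    (IsFractionRing.injective P (FractionRing P)) φ1 φ2 ψ1 ψ2 a1 a2 b1 b2 x y z w hd

end frac

end Pool.Agent.H9C.HR
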