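import Pool.Agent.H9C.HR.Frac

/-!
# A matrix of determinant one modulo an element which does not lift

Let `P` be a domain of characteristic two, `q = b² + l a²`.  Under a mild hypothesis on the three
elements the matrix `1 + X (a, b)ᵀ (l a, b)`, of determinant one modulo `q`, is not the reduction
of a matrix of determinant one over `P[X]`.
-/

set_option autoImplicit false

open Polynomial

namespace Pool.Agent.H9C.HR

variable {P : Type*} [CommRing P]

lemma rootT_C_mul_X (φ : P →+ P) (c : P) : rootT φ (C c * X) = C (φ c) := by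
  ext m
  rw [coeff_rootT, coeff_C_mul, coeff_X, coeff_C]
  by_cases h : m = 0
  · subst h
    simp
  · rw [if_neg (by omega), if_neg h]
    simp

lemma rootT_C_mul_X_sq (φ : P →+ P) (c : P) : rootT φ (C c * X ^ 2) = 0 := by
  ext m
  rw [coeff_rootT, coeff_C_mul, coeff_X_pow, if_neg (by omega)]
  simp

theorem no_lift [IsDomain P] (h2 : (2 : P) = 0) (φ : P →+ P)
    (hφ : ∀ s u, φ (s * s * u) = s * φ u) (a b l : P) (h1 : φ (a * b) = 0)
    (h3 : φ (l * (a * b)) = 1) (hab : ¬ ∃ u v, a * b = a * a * u + b * b * v)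
    (x y z w x1 y1 z1 w1 : P[X])
    (hx : x = 1 + C (l * (a * a)) * X + C (b * b + l * (a * a)) * x1)
    (hy : y = C (a * b) * X + C (b * b + l * (a * a)) * y1)
    (hz : z = C (l * (a * b)) * X + C (b * b + l * (a * a)) * z1)
    (hw : w = 1 + C (b * b) * X + C (b * b + l * (a * a)) * w1)
    (hd : x * w + y * z = 1) : False := by
  have h2' : (2 : P[X]) = 0 := by
    rw [show (2 : P[X]) = C (2 : P) from (map_ofNat C 2).symm, h2, C_0]
  -- the second root-linear map
  obtain ⟨ψ, hψ⟩ : ∃ ψ : P →+ P, ∀ u, ψ u = φ (l * u) :=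
    ⟨φ.comp (AddMonoidHom.mulLeft l), fun u => rfl⟩
  have hψr : ∀ s u, ψ (s * s * u) = s * ψ u := by
    intro s u
    rw [hψ, hψ, ← hφ]
    congr 1
    ring
  obtain ⟨X1, X2, e1, e2, e3⟩ := comp_domain h2 ψ φ hψr hφ x y z w hd
  have r1 : ∀ s u : P[X], rootT ψ (s * s * u) = s * rootT ψ u := rootT_sq h2 ψ hψr
  have r2 : ∀ s u : P[X], rootT φ (s * s * u) = s * rootT φ u := rootT_sq h2 φ hφ
  have l1 : ∀ u : P[X], rootT ψ (C l * u) = C l * rootT φ u := by
    intro u
    ext m
    rw [coeff_rootT, coeff_C_mul, coeff_C_mul, coeff_rootT, hψ, ← hφ]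
    congr 1
    ring
  have l2 : ∀ u : P[X], rootT φ (C l * u) = rootT ψ u := by
    intro u
    ext m
    rw [coeff_rootT, coeff_C_mul, coeff_rootT, hψ]
  -- the combined map
  obtain ⟨K, hK⟩ : ∃ K : P[X] →+ P[X], ∀ u, K u = C a * rootT ψ u + C b * rootT φ u :=
    ⟨(AddMonoidHom.mulLeft (C a)).comp (rootT ψ) + (AddMonoidHom.mulLeft (C b)).comp (rootT φ),
      fun u => rfl⟩
  have hKq : ∀ u, K (C (b * b + l * (a * a)) * u)
      = C (b * b + l * (a * a)) * rootT φ u := by
    intro u
    have e : C (b * b + l * (a * a)) * u = C b * C b * u + C a * C a * (C l * u) := by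
      simp only [map_add, map_mul]
      ring
    rw [hK, e, map_add, map_add, r1, r1, r2, r2, l1, l2]
    simp only [map_add, map_mul]
    linear_combination (C a * C b * rootT ψ u) * h2'
  obtain ⟨Y, hY⟩ : ∃ Y : P[X], Y = C (a * a) * X1 + C (b * b) * X2 := ⟨_, rfl⟩
  have hYK : Y + K Y = K (x * z) * K (y * w) := by
    have hY' : Y = C a * C a * X1 + C b * C b * X2 := by
      rw [hY]
      simp only [map_mul]
    rw [hK Y, hY', map_add, map_add, r1, r1, r2, r2, hK, hK]
    linear_combination (C a * C a) * e1 + (C b * C b) * e2 + (C a * C b) * e3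
  obtain ⟨Z1, hZ1⟩ : ∃ Z1, K (x * z) = C b + C (b * b + l * (a * a)) * Z1 := by
    refine ⟨rootT φ ((1 + C (l * (a * a)) * X) * z1 + x1 * (C (l * (a * b)) * X)
      + C (b * b + l * (a * a)) * x1 * z1), ?_⟩
    have e : x * z = C (l * (a * b)) * X + C (l * (a * a) * (l * (a * b))) * X ^ 2
        + C (b * b + l * (a * a)) * ((1 + C (l * (a * a)) * X) * z1
          + x1 * (C (l * (a * b)) * X) + C (b * b + l * (a * a)) * x1 * z1) := by
      rw [hx, hz, C_mul (a := l * (a * a)) (b := l * (a * b))]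
      ring
    rw [e, map_add, hKq, map_add, hK, hK, rootT_C_mul_X, rootT_C_mul_X, rootT_C_mul_X_sq,
      rootT_C_mul_X_sq, h3, hψ]
    have e5 : φ (l * (l * (a * b))) = 0 := by
      rw [← mul_assoc, hφ, h1, mul_zero]
    rw [e5]
    simp
  obtain ⟨Z2, hZ2⟩ : ∃ Z2, K (y * w) = C a + C (b * b + l * (a * a)) * Z2 := by
    refine ⟨rootT φ (C (a * b) * X * w1 + y1 * (1 + C (b * b) * X)
      + C (b * b + l * (a * a)) * y1 * w1), ?_⟩
    have e : y * w = C (a * b) * X + C (a * b * (b * b)) * X ^ 2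
        + C (b * b + l * (a * a)) * (C (a * b) * X * w1 + y1 * (1 + C (b * b) * X)
          + C (b * b + l * (a * a)) * y1 * w1) := by
      rw [hy, hw, C_mul (a := a * b) (b := b * b)]
      ring
    rw [e, map_add, hKq, map_add, hK, hK, rootT_C_mul_X, rootT_C_mul_X, rootT_C_mul_X_sq,
      rootT_C_mul_X_sq, hψ, h3, h1]
    simp
  -- comparison of coefficients
  have hfin : Y + K Y = C (a * b) + C (b * b + l * (a * a)) *
      (C b * Z2 + C a * Z1 + C (b * b + l * (a * a)) * Z1 * Z2) := by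
    rw [hYK, hZ1, hZ2, C_mul (a := a) (b := b)]
    ring
  have hco : ∀ n, Y.coeff n + (a * φ (l * Y.coeff (2 * n + 1)) + b * φ (Y.coeff (2 * n + 1)))
      = (C (a * b) : P[X]).coeff n + (b * b + l * (a * a)) *
        (C b * Z2 + C a * Z1 + C (b * b + l * (a * a)) * Z1 * Z2).coeff n := by
    intro n
    have := congrArg (fun p => coeff p n) hfin
    rw [coeff_add, hK, coeff_add, coeff_C_mul, coeff_C_mul, coeff_rootT, coeff_rootT, hψ,
      coeff_add, coeff_C_mul (a := b * b + l * (a * a))] at this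
    exact this
  have hc : ∀ t, (b * b + l * (a * a)) ∣ t →
      (b * b + l * (a * a)) ∣ a * φ (l * t) + b * φ t := by
    rintro t ⟨u, rfl⟩
    refine ⟨φ u, ?_⟩
    have e5 : φ (l * ((b * b + l * (a * a)) * u)) = b * φ (l * u) + a * (l * φ u) := by
      rw [← hφ l u, ← hφ b, ← hφ a, ← map_add]
      congr 1
      ring
    have e6 : φ ((b * b + l * (a * a)) * u) = b * φ u + a * φ (l * u) := by
      rw [← hφ b, ← hφ a, ← map_add]
      congr 1
      ring
    rw [e5, e6]
    linear_combination (a * b * φ (l * u)) * h2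
  have hdiv : ∀ k n, 1 ≤ n → Y.natDegree < n + k → (b * b + l * (a * a)) ∣ Y.coeff n := by
    intro k
    induction k with
    | zero =>
      intro n _ hn
      rw [coeff_eq_zero_of_natDegree_lt (by omega)]
      exact dvd_zero _
    | succ k ih =>
      intro n h1n hn
      obtain ⟨t, ht⟩ := hc _ (ih (2 * n + 1) (by omega) (by omega))
      have := hco n
      rw [ht, coeff_C, if_neg (by omega)] at this
      exact ⟨(C b * Z2 + C a * Z1 + C (b * b + l * (a * a)) * Z1 * Z2).coeff n - t, by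
        linear_combination this⟩
  obtain ⟨t, ht⟩ := hc _ (hdiv (Y.natDegree + 1) 1 le_rfl (by omega))
  have h0 := hco 0
  rw [show 2 * 0 + 1 = 1 from rfl, ht, coeff_C, if_pos rfl, hY, coeff_add, coeff_C_mul,
    coeff_C_mul] at h0
  apply hab
  set r := (C b * Z2 + C a * Z1 + C (b * b + l * (a * a)) * Z1 * Z2).coeff 0 with hr
  refine ⟨X1.coeff 0 + l * (t - r), X2.coeff 0 + (t - r), ?_⟩
  linear_combination -h0

end Pool.Agent.H9C.HR
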