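import Mathlib

/-!
# The kernel of a unimodular row of length three
-/

set_option autoImplicit false

namespace Pool.Agent.H9C.HR

variable {R : Type*} [CommRing R]

/-- The linear form of a row. -/
noncomputable def rowForm (r : Fin 3 → R) : (Fin 3 → R) →ₗ[R] R :=
  ∑ i, r i • LinearMap.proj i

lemma rowForm_apply (r v : Fin 3 → R) : rowForm r v = ∑ i, r i * v i := by
  simp [rowForm]

/-- The kernel of a unimodular row of length three plus a free module of rank one is free of
rank three. -/
noncomputable def kerEquiv (r s : Fin 3 → R) (h : ∑ i, r i * s i = 1) :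
    ((LinearMap.ker (rowForm r)) × (Fin 1 → R)) ≃ₗ[R] (Fin 3 → R) where
  toFun m := (m.1 : Fin 3 → R) + m.2 0 • s
  map_add' m n := by
    simp only [Prod.fst_add, Prod.snd_add, Submodule.coe_add, Pi.add_apply, add_smul]
    abel
  map_smul' c m := by
    simp only [Prod.smul_fst, Prod.smul_snd, Submodule.coe_smul, Pi.smul_apply, smul_eq_mul,
      RingHom.id_apply, smul_add, mul_smul]
  invFun v := (⟨v - rowForm r v • s, by
    rw [LinearMap.mem_ker, map_sub, map_smul, rowForm_apply r s, h]
    simp⟩, fun _ => rowForm r v)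
  left_inv m := by
    have hm : rowForm r (m.1 : Fin 3 → R) = 0 := m.1.2
    have hs : rowForm r s = 1 := by rw [rowForm_apply, h]
    have e : rowForm r ((m.1 : Fin 3 → R) + m.2 0 • s) = m.2 0 := by
      rw [map_add, map_smul, hm, hs]
      simp
    ext i
    · simp only [e]
      simp
    · have : i = 0 := Subsingleton.elim _ _
      subst this
      simp only [e]
  right_inv v := by
    simp

/-- If the kernel of a unimodular row of length three is free, then the row is the last row of the
inverse of a matrix of determinant one. -/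
theorem exists_matrix [Nontrivial R] (r s : Fin 3 → R) (h : ∑ i, r i * s i = 1)
    (hfree : Module.Free R (LinearMap.ker (rowForm r))) :
    ∃ G : Matrix (Fin 3) (Fin 3) R, G.det = 1 ∧
      (∑ i, r i * G i 0 = 0) ∧ (∑ i, r i * G i 1 = 0) ∧ (∑ i, r i * G i 2 = 1) := by
  classical
  haveI : Module.Finite R (LinearMap.ker (rowForm r)) := by
    refine Module.Finite.of_surjective
      ((LinearMap.fst R (LinearMap.ker (rowForm r)) (Fin 1 → R)).comp
        (kerEquiv r s h).symm.toLinearMap) ?_
    intro m
    exact ⟨kerEquiv r s h (m, 0), by simp⟩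
  have hrank : Module.finrank R (LinearMap.ker (rowForm r)) = 2 := by
    have e1 := (kerEquiv r s h).finrank_eq
    rw [Module.finrank_prod, Module.finrank_fin_fun, Module.finrank_fin_fun] at e1
    omega
  let b : Module.Basis (Fin 2) R (LinearMap.ker (rowForm r)) :=
    (Module.finBasis R (LinearMap.ker (rowForm r))).reindex (finCongr hrank)
  let B : Module.Basis (Fin 2 ⊕ Fin 1) R (Fin 3 → R) :=
    (b.prod (Pi.basisFun R (Fin 1))).map (kerEquiv r s h)
  let B3 : Module.Basis (Fin 3) R (Fin 3 → R) := B.reindex finSumFinEquiv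
  have hB0 : B3 0 = (b 0 : Fin 3 → R) := by
    have : B3 0 = B (Sum.inl 0) := by
      rw [Module.Basis.reindex_apply]
      rfl
    rw [this]
    simp [B, kerEquiv]
  have hB1 : B3 1 = (b 1 : Fin 3 → R) := by
    have : B3 1 = B (Sum.inl 1) := by
      rw [Module.Basis.reindex_apply]
      rfl
    rw [this]
    simp [B, kerEquiv]
  have hB2 : B3 2 = s := by
    have : B3 2 = B (Sum.inr 0) := by
      rw [Module.Basis.reindex_apply]
      rfl
    rw [this]
    simp [B, kerEquiv]
  let G : Matrix (Fin 3) (Fin 3) R := fun i j => B3 j i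
  have hG : IsUnit G.det := by
    have h1 : G = (Pi.basisFun R (Fin 3)).toMatrix B3 := by
      ext i j
      rw [Module.Basis.toMatrix_apply]
      simp [G]
    rw [h1, ← Matrix.isUnit_iff_isUnit_det]
    exact ⟨⟨_, _, Module.Basis.toMatrix_mul_toMatrix_flip _ _,
      Module.Basis.toMatrix_mul_toMatrix_flip _ _⟩, rfl⟩
  obtain ⟨d, hd⟩ := hG
  have r0 : ∑ i, r i * B3 0 i = 0 := by
    rw [← rowForm_apply, hB0]
    exact (b 0).2
  have r1 : ∑ i, r i * B3 1 i = 0 := by
    rw [← rowForm_apply, hB1]
    exact (b 1).2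
  have r2 : ∑ i, r i * B3 2 i = 1 := by
    rw [hB2, h]
  refine ⟨G * Matrix.diagonal ![((d⁻¹ : Rˣ) : R), 1, 1], ?_, ?_, ?_, ?_⟩
  · rw [Matrix.det_mul, Matrix.det_diagonal, ← hd]
    simp [Fin.prod_univ_three]
  · simp only [Matrix.mul_diagonal]
    simp only [Matrix.cons_val_zero, ← mul_assoc, ← Finset.sum_mul]
    rw [show ∑ i, r i * G i 0 = 0 from r0, zero_mul]
  · simp only [Matrix.mul_diagonal]
    simp only [Matrix.cons_val_one, Matrix.cons_val_zero, mul_one]
    exact r1
  · simp only [Matrix.mul_diagonal]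
    simp only [Matrix.cons_val, mul_one]
    exact r2

end Pool.Agent.H9C.HR
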