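import Pool.Agent.H9C.HR.NonLift
import Pool.Agent.H9C.HR.Rows

/-!
# A stably free module which is not free
-/

set_option autoImplicit false

open Polynomial

namespace Pool.Agent.H9C.HR

variable {P : Type*} [CommRing P]

/-- The matrix of determinant one over `P[X]` which lifts the block sum of the non-lifting matrix
with `1`. -/
noncomputable def matE (a b l : P) : Matrix (Fin 3) (Fin 3) P[X] :=
  !![1 + C (l * (a * a)) * X * (1 + C (b * b + l * (a * a)) * X),
      C (a * b) * X * (1 + C (b * b + l * (a * a)) * X), C ((b * b + l * (a * a)) * a) * X;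
     C (l * (a * b)) * X * (1 + C (b * b + l * (a * a)) * X),
      1 + C (b * b) * X * (1 + C (b * b + l * (a * a)) * X), C ((b * b + l * (a * a)) * b) * X;
     C ((b * b + l * (a * a)) * (l * a)) * X ^ 2, C ((b * b + l * (a * a)) * b) * X ^ 2,
      1 + C (b * b + l * (a * a)) * X]

lemma det_matE (h2 : (2 : P) = 0) (a b l : P) : (matE a b l).det = 1 := by
  have h2' : (2 : P[X]) = 0 := by
    rw [show (2 : P[X]) = C (2 : P) from (map_ofNat C 2).symm, h2, C_0]
  rw [Matrix.det_fin_three]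
  simp only [matE, Matrix.of_apply, Matrix.cons_val', Matrix.cons_val_zero, Matrix.cons_val_one,
    Matrix.cons_val, Matrix.cons_val_fin_one, map_add, map_mul]
  linear_combination ((C b * C b + C l * (C a * C a)) * X
    + (C b * C b + C l * (C a * C a)) ^ 2 * X ^ 2) * h2'

theorem not_free [IsDomain P] (h2 : (2 : P) = 0) (φ : P →+ P)
    (hφ : ∀ s u, φ (s * s * u) = s * φ u) (a b l : P) (h1 : φ (a * b) = 0)
    (h3 : φ (l * (a * b)) = 1) (hab : ¬ ∃ u v, a * b = a * a * u + b * b * v)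
    {k : Type*} [CommRing k] (σ : k →+* P)
    {R : Type*} [CommRing R] [Nontrivial R] (ι : R →+* P[X]) (π : R →+* k[X])
    (hcompat : ∀ ρ : R, ∃ t : P[X], ι ρ = (π ρ).map σ + C (b * b + l * (a * a)) * t)
    (r s : Fin 3 → R) (hrs : ∑ i, r i * s i = 1)
    (hr0 : ι (r 0) = C ((b * b + l * (a * a)) * (l * a)) * X ^ 2)
    (hr1 : ι (r 1) = C ((b * b + l * (a * a)) * b) * X ^ 2)
    (hr2 : ι (r 2) = 1 + C (b * b + l * (a * a)) * X)
    (p0 : π (r 0) = 0) (p1 : π (r 1) = 0) (p2 : π (r 2) = 1) :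
    ¬ Module.Free R (LinearMap.ker (rowForm r)) := by
  classical
  intro hfree
  have h2' : (2 : P[X]) = 0 := by
    rw [show (2 : P[X]) = C (2 : P) from (map_ofNat C 2).symm, h2, C_0]
  obtain ⟨G, hdet, g0, g1, g2⟩ := exists_matrix r s hrs hfree
  obtain ⟨q, hq⟩ : ∃ q, q = b * b + l * (a * a) := ⟨_, rfl⟩
  choose T hT using hcompat
  let Γ : Matrix (Fin 3) (Fin 3) P[X] := G.map ι
  let τ : R →+* P[X] := (mapRingHom σ).comp π
  let S : Matrix (Fin 3) (Fin 3) P[X] := G.map τ
  let T' : Matrix (Fin 3) (Fin 3) P[X] := G.map T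
  have hΓdet : Γ.det = 1 := by
    have := RingHom.map_det ι G
    rw [hdet, map_one] at this
    exact this.symm
  have hSdet : S.det = 1 := by
    have := RingHom.map_det τ G
    rw [hdet, map_one] at this
    exact this.symm
  have hΓS : Γ = S + C q • T' := by
    ext1 i j
    change ι (G i j) = τ (G i j) + C q * T (G i j)
    rw [hT (G i j), hq]
    rfl
  have hτ0 : τ (r 0) = 0 := by
    change mapRingHom σ (π (r 0)) = 0
    rw [p0, map_zero]
  have hτ1 : τ (r 1) = 0 := by
    change mapRingHom σ (π (r 1)) = 0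
    rw [p1, map_zero]
  have hτ2 : τ (r 2) = 1 := by
    change mapRingHom σ (π (r 2)) = 1
    rw [p2, map_one]
  rw [Fin.sum_univ_three] at g0 g1 g2
  have s0 : S 2 0 = 0 := by
    have := congrArg τ g0
    change τ (G 2 0) = 0
    simpa [hτ0, hτ1, hτ2] using this
  have s1 : S 2 1 = 0 := by
    have := congrArg τ g1
    change τ (G 2 1) = 0
    simpa [hτ0, hτ1, hτ2] using this
  have s2 : S 2 2 = 1 := by
    have := congrArg τ g2
    change τ (G 2 2) = 1
    simpa [hτ0, hτ1, hτ2] using this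
  have hadj : S * S.adjugate = 1 := by
    rw [Matrix.mul_adjugate, hSdet, one_smul]
  have hrow : ∀ j, S.adjugate 2 j = (1 : Matrix (Fin 3) (Fin 3) P[X]) 2 j := by
    intro j
    rw [← hadj, Matrix.mul_apply, Fin.sum_univ_three, s0, s1, s2]
    ring
  have hE : ∀ j, (matE a b l * Γ) 2 j = ι (r 0 * G 0 j + r 1 * G 1 j + r 2 * G 2 j) := by
    intro j
    rw [Matrix.mul_apply, Fin.sum_univ_three, map_add, map_add, map_mul, map_mul, map_mul,
      hr0, hr1, hr2]
    rfl
  have hE0 : (matE a b l * Γ) 2 0 = 0 := by rw [hE, g0, map_zero]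
  have hE1 : (matE a b l * Γ) 2 1 = 0 := by rw [hE, g1, map_zero]
  have hE2 : (matE a b l * Γ) 2 2 = 1 := by rw [hE, g2, map_one]
  obtain ⟨W, hW⟩ : ∃ W, W = matE a b l * Γ * S.adjugate := ⟨_, rfl⟩
  obtain ⟨V, hV⟩ : ∃ V, V = matE a b l * T' * S.adjugate := ⟨_, rfl⟩
  have hWrow : ∀ j, W 2 j = (1 : Matrix (Fin 3) (Fin 3) P[X]) 2 j := by
    intro j
    rw [hW, Matrix.mul_apply, Fin.sum_univ_three, hE0, hE1, hE2, hrow]
    ring
  have hWdet : W.det = 1 := by
    rw [hW, Matrix.det_mul, Matrix.det_mul, det_matE h2, hΓdet, Matrix.det_adjugate, hSdet]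
    simp
  have hWV : W = matE a b l + C q • V := by
    rw [hW, hV, hΓS, Matrix.mul_add, Matrix.add_mul, Matrix.mul_assoc, hadj, Matrix.mul_one,
      Matrix.mul_smul, Matrix.smul_mul]
  have w20 : W 2 0 = 0 := by rw [hWrow]; rfl
  have w21 : W 2 1 = 0 := by rw [hWrow]; rfl
  have w22 : W 2 2 = 1 := by rw [hWrow]; rfl
  have hdd : W 0 0 * W 1 1 + W 0 1 * W 1 0 = 1 := by
    rw [Matrix.det_fin_three, w20, w21, w22] at hWdet
    linear_combination hWdet + W 0 1 * W 1 0 * h2'
  refine no_lift h2 φ hφ a b l h1 h3 hab (W 0 0) (W 0 1) (W 1 0) (W 1 1)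
    (C (l * (a * a)) * X * X + V 0 0) (C (a * b) * X * X + V 0 1)
    (C (l * (a * b)) * X * X + V 1 0) (C (b * b) * X * X + V 1 1) ?_ ?_ ?_ ?_ hdd
  · rw [hWV, hq]
    change (1 + C (l * (a * a)) * X * (1 + C (b * b + l * (a * a)) * X))
      + C (b * b + l * (a * a)) * V 0 0 = _
    ring
  · rw [hWV, hq]
    change (C (a * b) * X * (1 + C (b * b + l * (a * a)) * X))
      + C (b * b + l * (a * a)) * V 0 1 = _
    ring
  · rw [hWV, hq]
    change (C (l * (a * b)) * X * (1 + C (b * b + l * (a * a)) * X))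
      + C (b * b + l * (a * a)) * V 1 0 = _
    ring
  · rw [hWV, hq]
    change (1 + C (b * b) * X * (1 + C (b * b + l * (a * a)) * X))
      + C (b * b + l * (a * a)) * V 1 1 = _
    ring

end Pool.Agent.H9C.HR
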