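import Pool.Agent.H9C.HR.Core

/-!
# Root-linear maps on polynomial rings

A root-linear map on a ring of characteristic two extends to the polynomial ring by taking the
odd coefficients; this extension lowers the degree.  Over a field every matrix of determinant one
over the polynomial ring has the compatibility property, and this passes to subrings.
-/

set_option autoImplicit false

open Polynomial

namespace Pool.Agent.H9C.HR

section ext

variable {D : Type*} [CommRing D]

/-- The polynomial with coefficients `φ (u.coeff (2 n + 1))`. -/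
noncomputable def rootFun (φ : D →+ D) (u : D[X]) : D[X] :=
  ∑ n ∈ Finset.range (u.natDegree + 1), monomial n (φ (u.coeff (2 * n + 1)))

lemma coeff_rootFun (φ : D →+ D) (u : D[X]) (m : ℕ) :
    (rootFun φ u).coeff m = φ (u.coeff (2 * m + 1)) := by
  unfold rootFun
  rw [finsetSum_coeff]
  simp only [coeff_monomial]
  rw [Finset.sum_ite_eq']
  split_ifs with h
  · rfl
  · rw [Finset.mem_range, not_lt] at h
    rw [coeff_eq_zero_of_natDegree_lt (by omega), map_zero]

/-- The extension of an additive map to the polynomial ring by the odd coefficients. -/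
noncomputable def rootT (φ : D →+ D) : D[X] →+ D[X] where
  toFun := rootFun φ
  map_zero' := by
    ext m
    simp [coeff_rootFun]
  map_add' u v := by
    ext m
    simp [coeff_rootFun]

lemma coeff_rootT (φ : D →+ D) (u : D[X]) (m : ℕ) :
    (rootT φ u).coeff m = φ (u.coeff (2 * m + 1)) :=
  coeff_rootFun φ u m

lemma rootT_sq (h2 : (2 : D) = 0) (φ : D →+ D) (hφ : ∀ s u, φ (s * s * u) = s * φ u)
    (s u : D[X]) : rootT φ (s * s * u) = s * rootT φ u := by
  have h2' : (2 : D[X]) = 0 := by
    rw [show (2 : D[X]) = C (2 : D) from (map_ofNat C 2).symm, h2, C_0]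
  induction s using Polynomial.induction_on' with
  | add p q hp hq =>
    have e : (p + q) * (p + q) * u = p * p * u + q * q * u := by
      linear_combination (p * q * u) * h2'
    rw [e, map_add, hp, hq, add_mul]
  | monomial k c =>
    ext m
    have e : (monomial k c : D[X]) * monomial k c * u = C (c * c) * (X ^ (2 * k) * u) := by
      rw [← C_mul_X_pow_eq_monomial, C_mul, two_mul, pow_add]
      ring
    rw [coeff_rootT, e, coeff_C_mul, coeff_X_pow_mul', ← C_mul_X_pow_eq_monomial,
      mul_assoc (C c) (X ^ k) (rootT φ u), coeff_C_mul, coeff_X_pow_mul', coeff_rootT]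
    by_cases h : k ≤ m
    · rw [if_pos h, if_pos (by omega : 2 * k ≤ 2 * m + 1), hφ]
      congr 3
      omega
    · rw [if_neg h, if_neg (by omega : ¬ 2 * k ≤ 2 * m + 1)]
      simp

lemma rootT_of_natDegree_zero (φ : D →+ D) (u : D[X]) (h : u.natDegree = 0) :
    rootT φ u = 0 := by
  ext m
  rw [coeff_rootT, coeff_eq_zero_of_natDegree_lt (by omega)]
  simp

lemma natDegree_rootT_lt (φ : D →+ D) (u : D[X]) (h : u.natDegree ≠ 0) :
    (rootT φ u).natDegree < u.natDegree := by
  have : (rootT φ u).natDegree ≤ u.natDegree - 1 := by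
    rw [natDegree_le_iff_coeff_eq_zero]
    intro m hm
    rw [coeff_rootT, coeff_eq_zero_of_natDegree_lt (by omega), map_zero]
  omega

lemma exists_solution (φ : D →+ D) (f : D[X]) : ∃ Y : D[X], Y + rootT φ Y = f := by
  induction hn : f.natDegree using Nat.strong_induction_on generalizing f with
  | _ n ih =>
    by_cases h0 : f.natDegree = 0
    · exact ⟨f, by rw [rootT_of_natDegree_zero φ f h0, add_zero]⟩
    · obtain ⟨Z, hZ⟩ := ih _ (hn ▸ natDegree_rootT_lt φ f h0) (rootT φ f) rfl
      refine ⟨f - Z, ?_⟩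
      rw [map_sub, ← hZ]
      ring

lemma solution_unique (φ : D →+ D) (Y : D[X]) (h : Y + rootT φ Y = 0) : Y = 0 := by
  by_cases h0 : Y.natDegree = 0
  · rw [rootT_of_natDegree_zero φ Y h0, add_zero] at h
    exact h
  · have h1 := natDegree_rootT_lt φ Y h0
    have h3 : rootT φ Y = -Y := by
      linear_combination h
    rw [h3, natDegree_neg] at h1
    omega

lemma solution_unique' (φ : D →+ D) (Y Z : D[X]) (h : Y + rootT φ Y = Z + rootT φ Z) :
    Y = Z := by
  have := solution_unique φ (Y - Z) (by rw [map_sub]; linear_combination h)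
  exact sub_eq_zero.mp this

end ext

section field

variable {F : Type*} [Field F]

/-- Over a field all matrices of determinant one over the polynomial ring are compatible. -/
theorem comp_field (h2 : (2 : F) = 0) (k1 k2 : F[X] →+ F[X])
    (hk1 : ∀ s u, k1 (s * s * u) = s * k1 u) (hk2 : ∀ s u, k2 (s * s * u) = s * k2 u)
    (x y : F[X]) : ∀ z w : F[X], x * w + y * z = 1 → Comp k1 k2 x y z w := by
  have h2' : (2 : F[X]) = 0 := by
    rw [show (2 : F[X]) = C (2 : F) from (map_ofNat C 2).symm, h2, C_0]
  refine EuclideanDomain.GCD.induction (P := fun x y => ∀ z w : F[X], x * w + y * z = 1 →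
    Comp k1 k2 x y z w) x y ?_ ?_
  · intro y z w _
    exact comp_of_left k1 k2 (by simp)
  · intro x y _ ih z w hd
    have hdiv : x * (y / x) + y % x = y := EuclideanDomain.div_add_mod y x
    have hd1 : (y % x) * z + x * (w - (y / x) * z) = 1 := by
      linear_combination hd + z * hdiv - x * (y / x) * z * h2'
    have hG := ih (w - (y / x) * z) z hd1
    have hH : Comp k1 k2 (0 : F[X]) 1 1 (y / x) := comp_of_left k1 k2 (by simp)
    have := comp_mul h2' k1 k2 hk1 hk2 hd1 (by simp : (0 : F[X]) * (y / x) + 1 * 1 = 1) hG hH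
    have e1 : y % x * 0 + x * 1 = x := by ring
    have e2 : y % x * 1 + x * (y / x) = y := by linear_combination hdiv
    have e3 : (w - (y / x) * z) * 0 + z * 1 = z := by ring
    have e4 : (w - (y / x) * z) * 1 + z * (y / x) = w := by ring
    rw [e1, e2, e3, e4] at this
    exact this

end field

section transfer

variable {P F : Type*} [CommRing P] [Field F]

lemma map_rootT (j : P →+* F) (φ : P →+ P) (ψ : F →+ F) (hφψ : ∀ u, ψ (j u) = j (φ u))
    (u : P[X]) : (rootT φ u).map j = rootT ψ (u.map j) := by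
  ext m
  rw [coeff_map, coeff_rootT, coeff_rootT, coeff_map, hφψ]

/-- The compatibility property for matrices over the polynomial ring of a ring which embeds
compatibly into a field. -/
theorem comp_transfer (h2 : (2 : F) = 0) (j : P →+* F) (hj : Function.Injective j)
    (φ1 φ2 : P →+ P) (ψ1 ψ2 : F →+ F)
    (h1 : ∀ u, ψ1 (j u) = j (φ1 u)) (h1' : ∀ u, ψ2 (j u) = j (φ2 u))
    (hψ1 : ∀ s u, ψ1 (s * s * u) = s * ψ1 u) (hψ2 : ∀ s u, ψ2 (s * s * u) = s * ψ2 u)
    (x y z w : P[X]) (hd : x * w + y * z = 1) :
    Comp (rootT φ1) (rootT φ2) x y z w := by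
  have hinj : Function.Injective (Polynomial.map j) := Polynomial.map_injective j hj
  have hdF : x.map j * w.map j + y.map j * z.map j = 1 := by
    have := congrArg (Polynomial.map j) hd
    simpa using this
  obtain ⟨A1, A2, a1, a2, a3⟩ := comp_field h2 (rootT ψ1) (rootT ψ2) (rootT_sq h2 ψ1 hψ1)
    (rootT_sq h2 ψ2 hψ2) (x.map j) (y.map j) (z.map j) (w.map j) hdF
  obtain ⟨B1, b1⟩ := exists_solution φ1 (rootT φ1 (x * z) * rootT φ1 (y * w))
  obtain ⟨B2, b2⟩ := exists_solution φ2 (rootT φ2 (x * z) * rootT φ2 (y * w))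
  have m1 : A1 = B1.map j := by
    apply solution_unique' ψ1
    rw [a1, ← map_rootT j φ1 ψ1 h1, ← Polynomial.map_mul, ← Polynomial.map_mul,
      ← map_rootT j φ1 ψ1 h1, ← map_rootT j φ1 ψ1 h1, ← Polynomial.map_mul,
      ← Polynomial.map_add, b1]
  have m2 : A2 = B2.map j := by
    apply solution_unique' ψ2
    rw [a2, ← map_rootT j φ2 ψ2 h1', ← Polynomial.map_mul, ← Polynomial.map_mul,
      ← map_rootT j φ2 ψ2 h1', ← map_rootT j φ2 ψ2 h1', ← Polynomial.map_mul,
      ← Polynomial.map_add, b2]
  refine ⟨B1, B2, b1, b2, hinj ?_⟩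
  rw [m1, m2, ← Polynomial.map_mul, ← Polynomial.map_mul, ← map_rootT j φ1 ψ1 h1,
    ← map_rootT j φ1 ψ1 h1, ← map_rootT j φ1 ψ1 h1, ← map_rootT j φ2 ψ2 h1',
    ← map_rootT j φ2 ψ2 h1', ← map_rootT j φ2 ψ2 h1', ← Polynomial.map_mul,
    ← Polynomial.map_mul, ← Polynomial.map_add, ← Polynomial.map_add] at a3
  exact a3

end transfer

end Pool.Agent.H9C.HR
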