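import Pool.Agent.H9C.HR.Poly

/-!
# Root-linear maps on power series rings and a local domain of characteristic two
-/

set_option autoImplicit false

namespace Pool.Agent.H9C.HR

section series

variable {D : Type*} [CommRing D]

/-- The extension of an additive map to power series by the odd coefficients. -/
noncomputable def rootPS (φ : D →+ D) : PowerSeries D →+ PowerSeries D where
  toFun u := PowerSeries.mk fun n => φ (PowerSeries.coeff (2 * n + 1) u)
  map_zero' := by
    ext m
    simp
  map_add' u v := by
    ext m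
    simp

lemma coeff_rootPS (φ : D →+ D) (u : PowerSeries D) (m : ℕ) :
    PowerSeries.coeff m (rootPS φ u) = φ (PowerSeries.coeff (2 * m + 1) u) := by
  change PowerSeries.coeff m (PowerSeries.mk fun n => φ (PowerSeries.coeff (2 * n + 1) u)) = _
  rw [PowerSeries.coeff_mk]

lemma coeff_mul_congr {m N : ℕ} (h : m < N) {s t : PowerSeries D} {f g : Polynomial D}
    (hs : ∀ i < N, PowerSeries.coeff i s = f.coeff i)
    (ht : ∀ i < N, PowerSeries.coeff i t = g.coeff i) :
    PowerSeries.coeff m (s * t) = (f * g).coeff m := by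
  rw [PowerSeries.coeff_mul, Polynomial.coeff_mul]
  refine Finset.sum_congr rfl fun p hp => ?_
  rw [Finset.HasAntidiagonal.mem_antidiagonal] at hp
  rw [hs _ (by omega), ht _ (by omega)]

lemma rootPS_sq (h2 : (2 : D) = 0) (φ : D →+ D) (hφ : ∀ s u, φ (s * s * u) = s * φ u)
    (s u : PowerSeries D) : rootPS φ (s * s * u) = s * rootPS φ u := by
  ext m
  rw [coeff_rootPS]
  have hs : ∀ i < 2 * m + 2, PowerSeries.coeff i s = (PowerSeries.trunc (2 * m + 2) s).coeff i := by
    intro i hi
    rw [PowerSeries.coeff_trunc, if_pos hi]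
  have hu : ∀ i < 2 * m + 2, PowerSeries.coeff i u = (PowerSeries.trunc (2 * m + 2) u).coeff i := by
    intro i hi
    rw [PowerSeries.coeff_trunc, if_pos hi]
  rw [coeff_mul_congr (N := 2 * m + 2) (by omega) (fun i hi => coeff_mul_congr hi hs hs) hu,
    ← coeff_rootT, rootT_sq h2 φ hφ]
  symm
  apply coeff_mul_congr (N := m + 1) (by omega)
  · intro i hi
    exact hs i (by omega)
  · intro i hi
    rw [coeff_rootPS, coeff_rootT, hu _ (by omega)]

lemma rootPS_C_mul_X (φ : D →+ D) (c : D) :
    rootPS φ (PowerSeries.C c * PowerSeries.X) = PowerSeries.C (φ c) := by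
  ext m
  rw [coeff_rootPS, PowerSeries.coeff_C_mul, PowerSeries.coeff_X, PowerSeries.coeff_C]
  by_cases h : m = 0
  · subst h
    simp
  · rw [if_neg (by omega), if_neg h]
    simp

lemma rootPS_one (φ : D →+ D) : rootPS φ 1 = 0 := by
  ext m
  rw [coeff_rootPS, PowerSeries.coeff_one, if_neg (by omega)]
  simp

end series

/-- The formal power series ring in three variables over the field with two elements. -/
abbrev P3 : Type := PowerSeries (PowerSeries (PowerSeries (ZMod 2)))

/-- The root-linear map on the power series ring given by the coefficients with three odd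
exponents. -/
noncomputable def phi3 : P3 →+ P3 := rootPS (rootPS (rootPS (AddMonoidHom.id (ZMod 2))))

/-- The third variable. -/
noncomputable def vb : P3 := PowerSeries.X

/-- The second variable. -/
noncomputable def va : P3 := PowerSeries.C PowerSeries.X

/-- The first variable. -/
noncomputable def vl : P3 := PowerSeries.C (PowerSeries.C PowerSeries.X)

lemma two_zero_PS {D : Type*} [CommRing D] (h2 : (2 : D) = 0) : (2 : PowerSeries D) = 0 := by
  rw [show (2 : PowerSeries D) = PowerSeries.C (2 : D) from (map_ofNat PowerSeries.C 2).symm, h2,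
    map_zero]

lemma two_zmod : (2 : ZMod 2) = 0 := rfl

lemma two_P3 : (2 : P3) = 0 := two_zero_PS (two_zero_PS (two_zero_PS two_zmod))

lemma phi3_sq (s u : P3) : phi3 (s * s * u) = s * phi3 u := by
  have h0 : ∀ s u : ZMod 2, AddMonoidHom.id (ZMod 2) (s * s * u)
      = s * AddMonoidHom.id (ZMod 2) u := by
    intro s u
    change s * s * u = s * u
    have : ∀ s : ZMod 2, s * s = s := by decide
    rw [this]
  exact rootPS_sq (two_zero_PS (two_zero_PS two_zmod)) _
    (rootPS_sq (two_zero_PS two_zmod) _ (rootPS_sq two_zmod _ h0)) s u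

lemma phi3_ab : phi3 (va * vb) = 0 := by
  unfold phi3 va vb
  rw [rootPS_C_mul_X]
  have : (PowerSeries.X : PowerSeries (PowerSeries (ZMod 2)))
      = PowerSeries.C 1 * PowerSeries.X := by simp
  rw [this, rootPS_C_mul_X, rootPS_one]
  simp

lemma phi3_lab : phi3 (vl * (va * vb)) = 1 := by
  have e : vl * (va * vb) = PowerSeries.C (PowerSeries.C PowerSeries.X * PowerSeries.X)
      * PowerSeries.X := by
    unfold vl va vb
    rw [map_mul]
    ring
  unfold phi3
  rw [e, rootPS_C_mul_X, rootPS_C_mul_X]
  have : (PowerSeries.X : PowerSeries (ZMod 2)) = PowerSeries.C 1 * PowerSeries.X := by simp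
  rw [this, rootPS_C_mul_X]
  simp

lemma not_mem_squares : ¬ ∃ u v, va * vb = va * va * u + vb * vb * v := by
  rintro ⟨u, v, h⟩
  unfold va vb at h
  have h1 := congrArg (PowerSeries.coeff 1) h
  rw [PowerSeries.coeff_C_mul, map_add, mul_assoc, PowerSeries.coeff_C_mul,
    PowerSeries.coeff_C_mul, mul_assoc PowerSeries.X, PowerSeries.coeff_one_X] at h1
  rw [show (1 : ℕ) = 0 + 1 from rfl, PowerSeries.coeff_succ_X_mul] at h1
  rw [PowerSeries.coeff_zero_X_mul, mul_one, add_zero] at h1
  have h2 := congrArg (PowerSeries.coeff 1) h1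
  rw [PowerSeries.coeff_one_X, show (1 : ℕ) = 0 + 1 from rfl, PowerSeries.coeff_succ_X_mul,
    PowerSeries.coeff_zero_X_mul] at h2
  exact one_ne_zero h2

lemma isUnit_one_add (t : P3) : IsUnit (1 + (vb * vb + vl * (va * va)) * t) := by
  rw [PowerSeries.isUnit_iff_constantCoeff, PowerSeries.isUnit_iff_constantCoeff]
  unfold va vb vl
  simp

end Pool.Agent.H9C.HR
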