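import Pool.Agent.H9C.HR.NotFree
import Pool.Agent.H9C.HR.Series

/-!
# The local ring and the stably free module
-/

set_option autoImplicit false

open Polynomial

namespace Pool.Agent.H9C.HR

section fib

variable {P k : Type*} [CommRing P] [CommRing k]

/-- The pairs `(ε, p)` with `p` congruent to `σ ε` modulo `q`. -/
def fib (σ : k →+* P) (q : P) : Subring (k × P) :=
  RingHom.eqLocus
    (((Ideal.Quotient.mk (Ideal.span {q})).comp σ).comp (RingHom.fst k P))
    ((Ideal.Quotient.mk (Ideal.span {q})).comp (RingHom.snd k P))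

lemma mem_fib (σ : k →+* P) (q : P) (x : k × P) : x ∈ fib σ q ↔ ∃ t, x.2 = σ x.1 + q * t := by
  change Ideal.Quotient.mk (Ideal.span {q}) (σ x.1) = Ideal.Quotient.mk (Ideal.span {q}) x.2 ↔ _
  rw [eq_comm, Ideal.Quotient.eq, Ideal.mem_span_singleton]
  constructor
  · rintro ⟨t, ht⟩
    exact ⟨t, by linear_combination ht⟩
  · rintro ⟨t, ht⟩
    exact ⟨t, by linear_combination ht⟩

/-- The first projection. -/
def fibFst (σ : k →+* P) (q : P) : fib σ q →+* k := (RingHom.fst k P).comp (fib σ q).subtype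

/-- The second projection. -/
def fibSnd (σ : k →+* P) (q : P) : fib σ q →+* P := (RingHom.snd k P).comp (fib σ q).subtype

lemma fib_compat (σ : k →+* P) (q : P) (ρ : (fib σ q)[X]) :
    ∃ t : P[X], mapRingHom (fibSnd σ q) ρ
      = (mapRingHom (fibFst σ q) ρ).map σ + C q * t := by
  induction ρ using Polynomial.induction_on' with
  | add f g hf hg =>
    obtain ⟨t, ht⟩ := hf
    obtain ⟨u, hu⟩ := hg
    exact ⟨t + u, by rw [map_add, map_add, ht, hu, Polynomial.map_add]; ring⟩
  | monomial n c =>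
    obtain ⟨t, ht⟩ := (mem_fib σ q _).1 c.2
    refine ⟨monomial n t, ?_⟩
    rw [coe_mapRingHom, coe_mapRingHom, map_monomial, map_monomial, map_monomial, C_mul_monomial,
      ← map_add]
    congr 1

lemma fib_local {K : Type*} [Field K] (σ : K →+* P) (q : P) (hq : ∀ t, IsUnit (1 + q * t)) :
    IsLocalRing (fib σ q) := by
  have : IsLocalHom (fibFst σ q) := by
    constructor
    rintro ⟨⟨e, p⟩, hx⟩ he
    obtain ⟨t, ht⟩ := (mem_fib σ q _).1 hx
    have he' : e ≠ 0 := by
      intro h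
      subst h
      exact not_isUnit_zero he
    simp only at ht
    have hs : σ e * σ e⁻¹ = 1 := by
      rw [← map_mul, mul_inv_cancel₀ he', map_one]
    obtain ⟨u, hu⟩ := hq (σ e⁻¹ * t)
    have hinv : (u : P) * ((u⁻¹ : Pˣ) : P) = 1 := u.mul_inv
    have hmem : ((e⁻¹, σ e⁻¹ * ((u⁻¹ : Pˣ) : P)) : K × P) ∈ fib σ q := by
      rw [mem_fib]
      refine ⟨-(σ e⁻¹ * (σ e⁻¹ * t) * ((u⁻¹ : Pˣ) : P)), ?_⟩
      change σ e⁻¹ * ((u⁻¹ : Pˣ) : P) = σ e⁻¹ + q * _
      rw [hu] at hinv
      linear_combination (σ e⁻¹) * hinv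
    refine IsUnit.of_mul_eq_one ⟨_, hmem⟩ ?_
    apply Subtype.ext
    change ((e * e⁻¹, p * (σ e⁻¹ * ((u⁻¹ : Pˣ) : P))) : K × P) = (1, 1)
    rw [mul_inv_cancel₀ he', Prod.mk.injEq]
    refine ⟨rfl, ?_⟩
    rw [hu] at hinv
    rw [ht]
    linear_combination hinv + ((u⁻¹ : Pˣ) : P) * hs
  exact RingHom.domain_isLocalRing (fibFst σ q)

end fib

/-- There is a local ring `A` and a unimodular row of length three over `A[X]` whose kernel is not
free; the same holds over every ring isomorphic to `A[X]`. -/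
theorem exists_local_ring : ∃ (A : Type) (_ : CommRing A), IsLocalRing A ∧
    ∃ r s : Fin 3 → A[X], ∑ i, r i * s i = 1 ∧
      ∀ (R : Type) [CommRing R] (e : R ≃+* A[X]),
        ¬ Module.Free R (LinearMap.ker (rowForm fun i => e.symm (r i))) := by
  classical
  haveI : CharP P3 2 := CharTwo.of_one_ne_zero_of_two_eq_zero one_ne_zero two_P3
  let σ : ZMod 2 →+* P3 := ZMod.castHom (dvd_refl 2) P3
  obtain ⟨q, hq⟩ : ∃ q : P3, q = vb * vb + vl * (va * va) := ⟨_, rfl⟩
  have hmem : ∀ c : P3, ((0, q * c) : ZMod 2 × P3) ∈ fib σ q := by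
    intro c
    rw [mem_fib]
    exact ⟨c, by simp⟩
  let el : P3 → fib σ q := fun c => ⟨(0, q * c), hmem c⟩
  have hel2 : ∀ c, fibSnd σ q (el c) = q * c := fun c => rfl
  have hel1 : ∀ c, fibFst σ q (el c) = 0 := fun c => rfl
  have h2A : (2 : fib σ q) = 0 := by
    apply Subtype.ext
    change ((2 : ZMod 2), (2 : P3)) = (0, 0)
    rw [two_P3, two_zmod]
  have h2AX : (2 : (fib σ q)[X]) = 0 := by
    rw [show (2 : (fib σ q)[X]) = C (2 : fib σ q) from (map_ofNat C 2).symm, h2A, C_0]
  have hmul : el (vl * va) * el va + el vb * el vb = el 1 * el 1 * el 1 := by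
    apply Subtype.ext
    change (((0 : ZMod 2) * 0, q * (vl * va) * (q * va)) : ZMod 2 × P3)
      + (0 * 0, q * vb * (q * vb)) = (0 * 0 * 0, q * 1 * (q * 1) * (q * 1))
    rw [Prod.mk_add_mk, Prod.mk.injEq]
    refine ⟨by simp, ?_⟩
    rw [hq]
    ring
  have hmulX : C (el (vl * va)) * C (el va) + C (el vb) * C (el vb)
      = C (el 1) * C (el 1) * (C (el 1) : (fib σ q)[X]) := by
    rw [← C_mul, ← C_mul, ← C_add, hmul, C_mul, C_mul]
  refine ⟨fib σ q, inferInstance, fib_local σ q (by rw [hq]; exact isUnit_one_add),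
    ![C (el (vl * va)) * X ^ 2, C (el vb) * X ^ 2, 1 + C (el 1) * X],
    ![C (el va) * X, C (el vb) * X, 1 + C (el 1) * X + C (el 1) ^ 2 * X ^ 2], ?_, ?_⟩
  · rw [Fin.sum_univ_three]
    simp only [Matrix.cons_val_zero, Matrix.cons_val_one, Matrix.cons_val]
    linear_combination X ^ 3 * hmulX + (C (el 1) * X + C (el 1) ^ 2 * X ^ 2
      + C (el 1) ^ 3 * X ^ 3) * h2AX
  · intro R _ e
    haveI : Nontrivial (fib σ q) := (fib_local σ q (by rw [hq]; exact isUnit_one_add)).toNontrivial
    haveI : Nontrivial R := e.toEquiv.nontrivial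
    refine not_free two_P3 phi3 phi3_sq va vb vl phi3_ab phi3_lab not_mem_squares σ
      (R := R) ((mapRingHom (fibSnd σ q)).comp e.toRingHom)
      ((mapRingHom (fibFst σ q)).comp e.toRingHom) ?_ _
      (fun i => e.symm ((![C (el va) * X, C (el vb) * X,
        1 + C (el 1) * X + C (el 1) ^ 2 * X ^ 2] : Fin 3 → (fib σ q)[X]) i)) ?_ ?_ ?_ ?_ ?_ ?_ ?_
    · intro ρ
      rw [← hq]
      exact fib_compat σ q (e ρ)
    · simp only [← map_mul, ← map_sum]
      rw [← map_one e.symm]
      congr 1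
      rw [Fin.sum_univ_three]
      simp only [Matrix.cons_val_zero, Matrix.cons_val_one, Matrix.cons_val]
      linear_combination X ^ 3 * hmulX + (C (el 1) * X + C (el 1) ^ 2 * X ^ 2
        + C (el 1) ^ 3 * X ^ 3) * h2AX
    · change mapRingHom (fibSnd σ q) (e (e.symm (C (el (vl * va)) * X ^ 2))) = _
      rw [RingEquiv.apply_symm_apply, coe_mapRingHom, Polynomial.map_mul, Polynomial.map_pow,
        map_C, map_X, hel2, ← hq]
    · change mapRingHom (fibSnd σ q) (e (e.symm (C (el vb) * X ^ 2))) = _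
      rw [RingEquiv.apply_symm_apply, coe_mapRingHom, Polynomial.map_mul, Polynomial.map_pow,
        map_C, map_X, hel2, ← hq]
    · change mapRingHom (fibSnd σ q) (e (e.symm (1 + C (el 1) * X))) = _
      rw [RingEquiv.apply_symm_apply, coe_mapRingHom, Polynomial.map_add, Polynomial.map_mul,
        map_C, map_X, Polynomial.map_one, hel2, mul_one, ← hq]
    · change mapRingHom (fibFst σ q) (e (e.symm (C (el (vl * va)) * X ^ 2))) = _
      rw [RingEquiv.apply_symm_apply, coe_mapRingHom, Polynomial.map_mul, map_C, hel1, C_0,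
        zero_mul]
    · change mapRingHom (fibFst σ q) (e (e.symm (C (el vb) * X ^ 2))) = _
      rw [RingEquiv.apply_symm_apply, coe_mapRingHom, Polynomial.map_mul, map_C, hel1, C_0,
        zero_mul]
    · change mapRingHom (fibFst σ q) (e (e.symm (1 + C (el 1) * X))) = _
      rw [RingEquiv.apply_symm_apply, coe_mapRingHom, Polynomial.map_add, Polynomial.map_mul,
        map_C, hel1, C_0, zero_mul, Polynomial.map_one, add_zero]

end Pool.Agent.H9C.HR
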